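import Pool.Agent.Helper93.LD.Avd

/-!
# L^1 discrepancy: integrability of the integrand and reduction of the integral to averages over
grids (modules LD-INT, LD-SMALL of MP_c61924_co)
-/

set_option autoImplicit false

namespace Pool.Agent.Helper93.LD

open MeasureTheory

theorem av_eq_sum (s : ℕ) (φ : ℕ → ℝ) (t : ℕ) :
    av s φ t = ((2:ℝ) ^ s)⁻¹ * ∑ i ∈ Finset.range (2 ^ s), φ (t * 2 ^ s + i) := by
  induction s generalizing t with
  | zero => simp [av_zero]
  | succ s ih =>
    have hp : (2:ℕ) ^ (s + 1) = 2 ^ s + 2 ^ s := by ring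
    have h1 : ∀ i, 2 * t * 2 ^ s + i = t * (2 ^ s + 2 ^ s) + i := fun i => by ring
    have h2 : ∀ i, (2 * t + 1) * 2 ^ s + i = t * (2 ^ s + 2 ^ s) + (2 ^ s + i) := fun i => by ring
    rw [av_succ, ih, ih, hp, Finset.sum_range_add]
    simp only [h1, h2]
    rw [smul_eq_mul]
    have h3 : ((2:ℝ) ^ s) ≠ 0 := by positivity
    rw [pow_succ]
    field_simp

theorem avd_eq_sum (L d : ℕ) (f : (Fin d → ℕ) → ℝ) :
    avd L d f = (((2:ℝ) ^ L) ^ d)⁻¹ * ∑ k : Fin d → Fin (2 ^ L), f (fun i => (k i : ℕ)) := by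
  induction d with
  | zero =>
    simp only [pow_zero, inv_one, one_mul, Finset.univ_unique, Finset.sum_singleton]
    show f _ = f _
    congr 1
    ext i
    exact i.elim0
  | succ d ih =>
    show av L (fun x => avd L d (fun v => f (Fin.cons x v))) 0 = _
    rw [av_eq_sum]
    simp only [ih, zero_mul, zero_add]
    rw [← (Fin.consEquiv (fun _ : Fin (d + 1) => Fin (2 ^ L))).sum_comp, Fintype.sum_prod_type,
      ← Finset.mul_sum, ← mul_assoc, pow_succ, mul_inv, mul_comm (((2:ℝ) ^ L) ^ d)⁻¹, 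
      Finset.sum_range]
    congr 1
    refine Finset.sum_congr rfl fun x _ => Finset.sum_congr rfl fun v _ => ?_
    congr 1
    ext i
    refine Fin.cases ?_ (fun j => ?_) i
    · simp [Fin.consEquiv]
    · simp [Fin.consEquiv]

theorem absdisc_eq {d : ℕ} (P : Finset (Fin d → ℝ)) (N : ℕ) (x : Fin d → ℝ) :
    absdisc P N x = |∑ p ∈ P, (if ∀ i, p i < x i then (1:ℝ) else 0) - (N : ℝ) * ∏ i, x i| := by
  unfold absdisc
  congr 2
  rw [Finset.sum_boole]
  congr 1
  rw [← Set.ncard_coe_finset]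
  congr 1
  ext p
  simp

theorem measurable_absdisc {d : ℕ} (P : Finset (Fin d → ℝ)) (N : ℕ) :
    Measurable (absdisc P N) := by
  have h : absdisc P N = fun x =>
      |∑ p ∈ P, (if ∀ i, p i < x i then (1:ℝ) else 0) - (N : ℝ) * ∏ i, x i| := by
    ext x
    exact absdisc_eq P N x
  rw [h]
  apply Measurable.abs
  apply Measurable.sub
  · refine Finset.measurable_sum _ fun p _ => ?_
    refine Measurable.ite ?_ measurable_const measurable_const
    have h1 : {x : Fin d → ℝ | ∀ i, p i < x i} = ⋂ i, {x | p i < x i} := by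
      ext x
      simp
    rw [h1]
    exact MeasurableSet.iInter fun i => measurableSet_lt measurable_const (measurable_pi_apply i)
  · apply Measurable.const_mul
    exact Finset.measurable_prod _ fun i _ => measurable_pi_apply i

theorem absdisc_nonneg {d : ℕ} (P : Finset (Fin d → ℝ)) (N : ℕ) (x : Fin d → ℝ) :
    0 ≤ absdisc P N x := abs_nonneg _

theorem absdisc_le {d : ℕ} (P : Finset (Fin d → ℝ)) (N : ℕ) (x : Fin d → ℝ)
    (hx : x ∈ Set.Icc (0 : Fin d → ℝ) 1) : absdisc P N x ≤ P.card + N := by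
  rw [absdisc_eq]
  refine (abs_sub _ _).trans (add_le_add ?_ ?_)
  · refine (Finset.abs_sum_le_sum_abs _ _).trans ?_
    rw [Finset.card_eq_sum_ones, Nat.cast_sum]
    refine Finset.sum_le_sum fun p _ => ?_
    split_ifs <;> simp
  · have h1 : 0 ≤ ∏ i, x i := Finset.prod_nonneg fun i _ => hx.1 i
    have h2 : ∏ i, x i ≤ 1 := Finset.prod_le_one (fun i _ => hx.1 i) fun i _ => hx.2 i
    rw [abs_of_nonneg (by positivity)]
    exact mul_le_of_le_one_right (by positivity) h2

/-- the discrepancy integrand is integrable on the cube -/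
theorem absdisc_integrableOn {d : ℕ} (P : Finset (Fin d → ℝ)) (N : ℕ) :
    IntegrableOn (absdisc P N) (Set.Icc (0 : Fin d → ℝ) 1) := by
  have hfin : volume (Set.Icc (0 : Fin d → ℝ) 1) ≠ ⊤ := (isCompact_Icc).measure_lt_top.ne
  refine Measure.integrableOn_of_bounded (M := P.card + N) hfin
    (measurable_absdisc P N).aestronglyMeasurable ?_
  rw [ae_restrict_iff' measurableSet_Icc]
  refine Filter.Eventually.of_forall fun x hx => ?_
  rw [Real.norm_of_nonneg (absdisc_nonneg P N x)]
  exact absdisc_le P N x hx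

/-- affine change of variables -/
theorem integral_cell {d : ℕ} (L : ℕ) (k : Fin d → ℝ) (g : (Fin d → ℝ) → ℝ) :
    ∫ x, g x = (((2:ℝ) ^ L) ^ d)⁻¹ * ∫ u : Fin d → ℝ, g (((2:ℝ) ^ L)⁻¹ • k + ((2:ℝ) ^ L)⁻¹ • u) := by
  have h1 := Measure.integral_comp_smul (μ := (volume : Measure (Fin d → ℝ)))
    (fun x : Fin d → ℝ => g (((2:ℝ) ^ L)⁻¹ • k + x)) (((2:ℝ) ^ L)⁻¹)
  rw [h1, integral_add_left_eq_self, Module.finrank_pi, Fintype.card_fin, smul_eq_mul,
    inv_pow, inv_inv, abs_of_nonneg (by positivity), ← mul_assoc, inv_mul_cancel₀ (by positivity),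
    one_mul]

/-- the half open cube -/
def cube (d : ℕ) : Set (Fin d → ℝ) := {u | ∀ i, 0 ≤ u i ∧ u i < 1}

theorem measurableSet_cube (d : ℕ) : MeasurableSet (cube d) := by
  have h1 : cube d = ⋂ i, ({x | 0 ≤ x i} ∩ {x | x i < 1}) := by
    ext x
    simp [cube]
  rw [h1]
  exact MeasurableSet.iInter fun i =>
    (measurableSet_le measurable_const (measurable_pi_apply i)).inter
      (measurableSet_lt (measurable_pi_apply i) measurable_const)

theorem cube_subset (d : ℕ) : cube d ⊆ Set.Icc (0 : Fin d → ℝ) 1 :=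
  fun x hx => ⟨fun i => (hx i).1, fun i => (hx i).2.le⟩

theorem cube_eq (d : ℕ) : cube d = Set.pi Set.univ (fun _ : Fin d => Set.Ico (0:ℝ) 1) := by
  ext x
  simp [cube]

theorem volume_cube (d : ℕ) : volume (cube d) = 1 := by
  rw [cube_eq, Real.volume_pi_Ico]
  simp

/-- decomposition of the cube into cells -/
theorem cube_decomp {d : ℕ} (L : ℕ) (F : (Fin d → ℝ) → ℝ) (x : Fin d → ℝ) :
    (cube d).indicator F x = ∑ k : Fin d → Fin (2 ^ L),
      (cube d).indicator (fun _ => F x) ((2:ℝ) ^ L • x - (fun i => ((k i : ℕ) : ℝ))) := by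
  classical
  have hL : (0:ℝ) < 2 ^ L := by positivity
  by_cases hx : x ∈ cube d
  · rw [Set.indicator_of_mem hx]
    have hlt : ∀ i, ⌊(2:ℝ) ^ L * x i⌋₊ < 2 ^ L := by
      intro i
      rw [Nat.floor_lt (mul_nonneg hL.le (hx i).1)]
      push_cast
      calc (2:ℝ) ^ L * x i < 2 ^ L * 1 := mul_lt_mul_of_pos_left (hx i).2 hL
        _ = 2 ^ L := mul_one _
    rw [Finset.sum_eq_single (fun i => (⟨⌊(2:ℝ) ^ L * x i⌋₊, hlt i⟩ : Fin (2 ^ L)))]
    · rw [Set.indicator_of_mem]
      intro i
      have h1 := Nat.floor_le (mul_nonneg hL.le (hx i).1)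
      have h2 := Nat.lt_floor_add_one ((2:ℝ) ^ L * x i)
      simp only [Pi.sub_apply, Pi.smul_apply, smul_eq_mul]
      constructor <;> linarith
    · intro k _ hk
      apply Set.indicator_of_notMem
      intro h
      apply hk
      ext i
      have h3 := h i
      simp only [Pi.sub_apply, Pi.smul_apply, smul_eq_mul] at h3
      show (k i : ℕ) = ⌊(2:ℝ) ^ L * x i⌋₊
      symm
      rw [Nat.floor_eq_iff (mul_nonneg hL.le (hx i).1)]
      constructor <;> linarith [h3.1, h3.2]
    · intro h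
      exact absurd (Finset.mem_univ _) h
  · rw [Set.indicator_of_notMem hx, Finset.sum_eq_zero]
    intro k _
    apply Set.indicator_of_notMem
    intro h
    apply hx
    intro i
    have h3 := h i
    simp only [Pi.sub_apply, Pi.smul_apply, smul_eq_mul] at h3
    have hk : ((k i : ℕ) : ℝ) + 1 ≤ 2 ^ L := by
      have := (k i).2
      exact_mod_cast this
    have hk0 : (0:ℝ) ≤ ((k i : ℕ) : ℝ) := Nat.cast_nonneg _
    constructor
    · by_contra hneg
      have : (2:ℝ) ^ L * x i < 0 := mul_neg_of_pos_of_neg hL (not_le.mp hneg)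
      linarith [h3.1]
    · by_contra hneg
      have : (2:ℝ) ^ L * 1 ≤ 2 ^ L * x i := mul_le_mul_of_nonneg_left (not_lt.mp hneg) hL.le
      linarith [h3.2]

/-- reduction of the integral to discrete averages over grids of step `2^(-L)` -/
theorem int_reduction (d L : ℕ) (P : Finset (Fin d → ℝ)) (N : ℕ) (B : ℝ)
    (h : ∀ u : Fin d → ℝ, (∀ i, 0 ≤ u i ∧ u i < 1) → ∀ q : (Fin d → ℝ) → Fin d → ℕ,
      B ≤ avd L d (fun k => |∑ p ∈ P, (if ∀ i, q p i ≤ k i then (1 : ℝ) else 0)
        - (N : ℝ) * ∏ i, (((k i : ℝ) + u i) / 2 ^ L)|)) :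
    B ≤ ∫ x in Set.Icc (0 : Fin d → ℝ) 1, absdisc P N x := by
  have hL : (0:ℝ) < 2 ^ L := by positivity
  -- pass to the half open cube
  have hsub : ∫ x in cube d, absdisc P N x ≤ ∫ x in Set.Icc (0 : Fin d → ℝ) 1, absdisc P N x := by
    apply setIntegral_mono_set (absdisc_integrableOn P N)
    · exact Filter.Eventually.of_forall fun x => absdisc_nonneg P N x
    · exact (cube_subset d).eventuallyLE
  refine le_trans ?_ hsub
  have hint : IntegrableOn (absdisc P N) (cube d) := (absdisc_integrableOn P N).mono_set (cube_subset d)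
  set H : (Fin d → Fin (2 ^ L)) → (Fin d → ℝ) → ℝ := fun k x =>
    (cube d).indicator (fun _ => absdisc P N x) ((2:ℝ) ^ L • x - (fun i => ((k i : ℕ) : ℝ)))
    with hH
  have hHk : ∀ k x, H k x = {y : Fin d → ℝ | (2:ℝ) ^ L • y - (fun i => ((k i : ℕ) : ℝ)) ∈ cube d}.indicator
      ((cube d).indicator (absdisc P N)) x := by
    intro k x
    by_cases hx : (2:ℝ) ^ L • x - (fun i => ((k i : ℕ) : ℝ)) ∈ cube d
    · rw [Set.indicator_of_mem (show x ∈ {y : Fin d → ℝ |
        (2:ℝ) ^ L • y - (fun i => ((k i : ℕ) : ℝ)) ∈ cube d} from hx)]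
      rw [hH]
      simp only
      rw [Set.indicator_of_mem hx]
      have hxc : x ∈ cube d := by
        intro i
        have h3 := hx i
        simp only [Pi.sub_apply, Pi.smul_apply, smul_eq_mul] at h3
        have hk : ((k i : ℕ) : ℝ) + 1 ≤ 2 ^ L := by
          have := (k i).2
          exact_mod_cast this
        have hk0 : (0:ℝ) ≤ ((k i : ℕ) : ℝ) := Nat.cast_nonneg _
        constructor
        · by_contra hneg
          have : (2:ℝ) ^ L * x i < 0 := mul_neg_of_pos_of_neg hL (not_le.mp hneg)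
          linarith [h3.1]
        · by_contra hneg
          have : (2:ℝ) ^ L * 1 ≤ 2 ^ L * x i := mul_le_mul_of_nonneg_left (not_lt.mp hneg) hL.le
          linarith [h3.2]
      rw [Set.indicator_of_mem hxc]
    · rw [Set.indicator_of_notMem (show x ∉ {y : Fin d → ℝ |
        (2:ℝ) ^ L • y - (fun i => ((k i : ℕ) : ℝ)) ∈ cube d} from hx)]
      rw [hH]
      exact Set.indicator_of_notMem hx _
  have hmeasS : ∀ k : Fin d → Fin (2 ^ L), MeasurableSet
      {y : Fin d → ℝ | (2:ℝ) ^ L • y - (fun i => ((k i : ℕ) : ℝ)) ∈ cube d} := by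
    intro k
    exact ((measurable_const_smul ((2:ℝ) ^ L)).sub_const _) (measurableSet_cube d)
  have hIntH : ∀ k, Integrable (H k) := by
    intro k
    have h1 : H k = {y : Fin d → ℝ | (2:ℝ) ^ L • y - (fun i => ((k i : ℕ) : ℝ)) ∈ cube d}.indicator
      ((cube d).indicator (absdisc P N)) := funext (hHk k)
    rw [h1]
    exact (hint.integrable_indicator (measurableSet_cube d)).indicator (hmeasS k)
  have hsum : ∫ x in cube d, absdisc P N x = ∑ k : Fin d → Fin (2 ^ L), ∫ x, H k x := by
    rw [← integral_indicator (measurableSet_cube d), ← integral_finsetSum _ fun k _ => hIntH k]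
    exact integral_congr_ae (Filter.Eventually.of_forall fun x => cube_decomp L _ x)
  -- change of variables
  have hHu : ∀ (k : Fin d → Fin (2 ^ L)) (u : Fin d → ℝ),
      H k (((2:ℝ) ^ L)⁻¹ • (fun i => ((k i : ℕ) : ℝ)) + ((2:ℝ) ^ L)⁻¹ • u) =
      (cube d).indicator (fun u => absdisc P N (fun i => (((k i : ℕ) : ℝ) + u i) / 2 ^ L)) u := by
    intro k u
    have h1 : (2:ℝ) ^ L • (((2:ℝ) ^ L)⁻¹ • (fun i => ((k i : ℕ) : ℝ)) + ((2:ℝ) ^ L)⁻¹ • u)
        - (fun i => ((k i : ℕ) : ℝ)) = u := by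
      rw [smul_add, smul_smul, smul_smul, mul_inv_cancel₀ hL.ne', one_smul, one_smul,
        add_sub_cancel_left]
    have h2 : (((2:ℝ) ^ L)⁻¹ • (fun i => ((k i : ℕ) : ℝ)) + ((2:ℝ) ^ L)⁻¹ • u) =
        (fun i => (((k i : ℕ) : ℝ) + u i) / 2 ^ L) := by
      ext i
      simp only [Pi.add_apply, Pi.smul_apply, smul_eq_mul]
      rw [div_eq_inv_mul, mul_add]
    rw [hH]
    simp only
    rw [h1, h2]
    by_cases hu : u ∈ cube d
    · rw [Set.indicator_of_mem hu, Set.indicator_of_mem hu]
    · rw [Set.indicator_of_notMem hu, Set.indicator_of_notMem hu]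
  have hInt2 : ∀ k : Fin d → Fin (2 ^ L), Integrable
      ((cube d).indicator (fun u => absdisc P N (fun i => (((k i : ℕ) : ℝ) + u i) / 2 ^ L))) := by
    intro k
    have h1 : Integrable (fun x : Fin d → ℝ => H k (((2:ℝ) ^ L)⁻¹ • (fun i => ((k i : ℕ) : ℝ)) + x)) :=
      (hIntH k).comp_add_left _
    have h2 := h1.comp_smul (R := ((2:ℝ) ^ L)⁻¹) (inv_ne_zero hL.ne')
    refine h2.congr (Filter.Eventually.of_forall fun u => ?_)
    exact hHu k u
  have hcell : ∀ k : Fin d → Fin (2 ^ L), ∫ x, H k x = (((2:ℝ) ^ L) ^ d)⁻¹ *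
      ∫ u, (cube d).indicator
        (fun u => absdisc P N (fun i => (((k i : ℕ) : ℝ) + u i) / 2 ^ L)) u := by
    intro k
    rw [integral_cell L (fun i => ((k i : ℕ) : ℝ)) (H k)]
    congr 1
    exact integral_congr_ae (Filter.Eventually.of_forall fun u => hHu k u)
  rw [hsum]
  simp only [hcell]
  rw [← Finset.mul_sum, ← integral_finsetSum _ fun k _ => hInt2 k, ← integral_const_mul]
  have hB : B = ∫ u, (cube d).indicator (fun _ => B) u := by
    rw [integral_indicator (measurableSet_cube d), setIntegral_const, Measure.real, volume_cube]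
    simp
  rw [hB]
  apply integral_mono
  · refine IntegrableOn.integrable_indicator ?_ (measurableSet_cube d)
    refine integrableOn_const ?_ (by simp)
    rw [volume_cube]
    exact ENNReal.one_ne_top
  · exact (integrable_finsetSum _ fun k _ => hInt2 k).const_mul _
  · intro u
    by_cases hu : u ∈ cube d
    · simp only
      rw [Set.indicator_of_mem hu]
      simp only [Set.indicator_of_mem hu]
      refine (h u hu (fun p i => (⌊(2:ℝ) ^ L * p i - u i⌋ + 1).toNat)).trans (le_of_eq ?_)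
      rw [avd_eq_sum]
      congr 1
      refine Finset.sum_congr rfl fun k _ => ?_
      rw [absdisc_eq]
      congr 2
      refine Finset.sum_congr rfl fun p _ => ?_
      congr 1
      apply propext
      refine forall_congr' fun i => ?_
      rw [lt_div_iff₀ hL, Int.toNat_le, Int.add_one_le_iff, Int.floor_lt]
      push_cast
      constructor
      · intro h; linarith
      · intro h; linarith
    · simp only
      rw [Set.indicator_of_notMem hu]
      simp only [Set.indicator_of_notMem hu, Finset.sum_const_zero, mul_zero, le_refl]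

end Pool.Agent.Helper93.LD
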