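import Pool.Agent.Helper2.LD.St2b

/-!
# LD project, module DecX1 (helper1): reconstruction of the gadgets
-/

set_option autoImplicit false

namespace Pool.Agent.Helper1.LD

open Pool.Agent.Helper2.LD

/-- the neighbours of a vertex of sort `r` -/
private theorem rn {K W : Type} {k : ℕ} {code : K → Finset ℕ} {H : SimpleGraph W}
    (hA : LocAx k code H) {κ : K} {y : W} (hy : Is k code H (Cl.r κ) y) :
    ∃ a, H.Adj y a ∧ ¬ Is k code H (Cl.l κ) a ∧
      ∀ u, H.Adj y u → u = a ∨ Is k code H (Cl.l κ) u := by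
  obtain ⟨a, ⟨ha1, ha2⟩, ha3⟩ := hA.up y (Cl.r κ) trivial hy (by simp)
  have ha2' : Is k code H (Cl.a2 κ) a := ha2
  refine ⟨a, ha1, fun h => ?_, fun u hu => ?_⟩
  · have := hA.un a (Cl.a2 κ) (Cl.l κ) trivial trivial ha2' h
    simp at this
  · obtain ⟨c, hc, hcu⟩ := hA.ex u
    rcases hA.nb y u (Cl.r κ) c trivial hc hu hy hcu with ⟨h1, -⟩ | ⟨-, h1⟩ | ⟨-, h1⟩
    · simp at h1
    · left
      refine ha3 u ⟨hu, ?_⟩
      have h2 : c = Cl.a2 κ := h1
      show Is k code H (Cl.a2 κ) u
      rw [← h2]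
      exact hcu
    · right
      cases c with
      | pl => simp [Cl.par] at h1
      | a1 κ' => simp [Cl.par] at h1
      | a2 κ' => simp [Cl.par] at h1
      | r κ' => simp [Cl.par] at h1
      | l κ' =>
        simp only [Cl.par, Cl.r.injEq] at h1
        rw [h1]
        exact hcu
      | m κ' i j =>
        simp only [Cl.par] at h1
        split_ifs at h1

/-- enumeration of the leaves -/
private theorem leaves {K W : Type} {k : ℕ} {code : K → Finset ℕ} {H : SimpleGraph W}
    (hA : LocAx k code H) {κ : K} {y : W} (hy : Is k code H (Cl.r κ) y) (n : ℕ)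
    (h1 : n = MM k ∨ n = MM k + 1) (h2 : n = MM k + 1 ↔ DegGe H (MM k + 2) y) :
    ∃ e : ℕ → W, (∀ i < n, H.Adj y (e i) ∧ Is k code H (Cl.l κ) (e i)) ∧
      (∀ i < n, ∀ j < n, e i = e j → i = j) ∧
      ∀ u, H.Adj y u → Is k code H (Cl.l κ) u → ∃ i < n, e i = u := by
  classical
  obtain ⟨a, ha1, ha2, ha3⟩ := rn hA hy
  obtain ⟨d1, d2⟩ := hA.rdeg y κ hy
  set N : Set W := {u | H.Adj y u ∧ Is k code H (Cl.l κ) u} with hN
  have hfin : N.Finite := by
    by_contra hinf
    obtain ⟨s, hs, hcard⟩ := Set.Infinite.exists_subset_card_eq hinf (MM k + 3)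
    exact d2 ⟨s, hcard, fun w hw => (hs hw).1⟩
  have hcount : ∀ q : ℕ, DegGe H (q + 1) y ↔ q ≤ hfin.toFinset.card := by
    intro q
    constructor
    · rintro ⟨s, hs, hadj⟩
      have h3 : s.erase a ⊆ hfin.toFinset := by
        intro u hu
        rw [Finset.mem_erase] at hu
        rw [Set.Finite.mem_toFinset]
        exact ⟨hadj u hu.2, (ha3 u (hadj u hu.2)).resolve_left hu.1⟩
      have h4 := Finset.card_le_card h3
      have h5 := Finset.pred_card_le_card_erase (s := s) (a := a)
      omega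
    · intro hq
      obtain ⟨s, hs, hcard⟩ := Finset.exists_subset_card_eq hq
      have hna : a ∉ s := fun h => ha2 (by
        have := hs h
        rw [Set.Finite.mem_toFinset] at this
        exact this.2)
      refine ⟨insert a s, by rw [Finset.card_insert_of_notMem hna, hcard], ?_⟩
      intro w hw
      rcases Finset.mem_insert.1 hw with rfl | hw
      · exact ha1
      · have := hs hw
        rw [Set.Finite.mem_toFinset] at this
        exact this.1
  have e1 : MM k ≤ hfin.toFinset.card := (hcount (MM k)).1 d1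
  have e2 : ¬ MM k + 2 ≤ hfin.toFinset.card := fun h => d2 ((hcount (MM k + 2)).2 h)
  have e3 := hcount (MM k + 1)
  have hn : hfin.toFinset.card = n := by
    by_cases hd : DegGe H (MM k + 2) y
    · have := e3.1 hd
      have := h2.2 hd
      omega
    · have e4 : ¬ MM k + 1 ≤ hfin.toFinset.card := fun h => hd (e3.2 h)
      have e5 : ¬ n = MM k + 1 := fun h => hd (h2.1 h)
      omega
  have f := hfin.toFinset.equivFinOfCardEq hn
  refine ⟨fun i => if h : i < n then ((f.symm ⟨i, h⟩ : hfin.toFinset) : W) else y, ?_, ?_, ?_⟩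
  · intro i hi
    simp only [hi, dif_pos]
    have := (f.symm ⟨i, hi⟩).2
    rw [Set.Finite.mem_toFinset] at this
    exact this
  · intro i hi j hj hij
    simp only [hi, hj, dif_pos] at hij
    have := f.symm.injective (Subtype.ext hij)
    simpa using this
  · intro u hu1 hu2
    have hu : u ∈ hfin.toFinset := by
      rw [Set.Finite.mem_toFinset]
      exact ⟨hu1, hu2⟩
    refine ⟨f ⟨u, hu⟩, (f ⟨u, hu⟩).2, ?_⟩
    simp

/-- the pendant path of length `i` -/
private theorem pth {K W : Type} {k : ℕ} {code : K → Finset ℕ} {H : SimpleGraph W}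
    (hA : LocAx k code H) {κ : K} {w : W} (hw : Is k code H (Cl.a1 κ) w) {i : ℕ}
    (hi : i ∈ code κ) :
    ∃ q : ℕ → W, q 0 = w ∧ ∀ j, 1 ≤ j → j ≤ i → Is k code H (Cl.m κ i j) (q j) ∧
      H.Adj (q (j - 1)) (q j) := by
  classical
  let nxt : ℕ → W → W := fun j u =>
    if h : ∃ u', H.Adj u u' ∧ Is k code H (Cl.m κ i (j + 1)) u' then h.choose else u
  have hnxt : ∀ j u, (∃ u', H.Adj u u' ∧ Is k code H (Cl.m κ i (j + 1)) u') →
      H.Adj u (nxt j u) ∧ Is k code H (Cl.m κ i (j + 1)) (nxt j u) := by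
    intro j u h
    simp only [nxt, h, dif_pos]
    exact h.choose_spec
  let q : ℕ → W := fun j => Nat.rec w (fun j u => nxt j u) j
  have q0 : q 0 = w := rfl
  have qs : ∀ j, q (j + 1) = nxt j (q j) := fun j => rfl
  have main : ∀ j, 1 ≤ j → j ≤ i → Is k code H (Cl.m κ i j) (q j) ∧ H.Adj (q (j - 1)) (q j) := by
    intro j
    induction j with
    | zero => intro h; omega
    | succ j ih =>
      intro _ hji
      have hex : ∃ u', H.Adj (q j) u' ∧ Is k code H (Cl.m κ i (j + 1)) u' := by
        rcases Nat.eq_zero_or_pos j with rfl | hj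
        · obtain ⟨u', hu', -⟩ := hA.dn w (Cl.a1 κ) (Cl.m κ i 1) trivial ⟨hi, le_refl 1, hji⟩ hw
            (by simp) (by simp [Cl.par]) (by simp) (by simp)
          exact ⟨u', hu'⟩
        · obtain ⟨u', hu', -⟩ := hA.dn (q j) (Cl.m κ i j) (Cl.m κ i (j + 1))
            ⟨hi, hj, by omega⟩ ⟨hi, by omega, hji⟩ (ih hj (by omega)).1
            (by simp) (by
              have : ¬ j + 1 ≤ 1 := by omega
              simp [Cl.par, this]) (by simp) (by simp)
          exact ⟨u', hu'⟩
      have := hnxt j (q j) hex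
      rw [qs]
      exact ⟨this.2, this.1⟩
  exact ⟨q, q0, main⟩

/-- a strong gadget at the vertex `w` of sort `a1` -/
private def SW {K W : Type} (k : ℕ) (code : K → Finset ℕ) (H : SimpleGraph W) (κ : K) (w : W) :
    Prop :=
  ∃ x y, H.Adj w x ∧ Is k code H (Cl.a2 κ) x ∧ H.Adj x y ∧ Is k code H (Cl.r κ) y ∧
    DegGe H (MM k + 2) y

/-- the two vertices of sort `a1`, the strong one first -/
private theorem two {K W : Type} {k : ℕ} {code : K → Finset ℕ} {H : SimpleGraph W}
    (hA : LocAx k code H) (v : W) (κ : K) (hv : Plv H v) :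
    ∃ w : Bool → W, (∀ c, H.Adj v (w c) ∧ Is k code H (Cl.a1 κ) (w c)) ∧ w true ≠ w false ∧
      (∀ u, H.Adj v u → Is k code H (Cl.a1 κ) u → u = w true ∨ u = w false) ∧
      (StrAt k code H v κ ↔ SW k code H κ (w true)) ∧ ¬ SW k code H κ (w false) := by
  obtain ⟨w1, w2, hne, h1, h2, hcov⟩ := hA.dn2 v κ hv
  have hS : StrAt k code H v κ ↔ SW k code H κ w1 ∨ SW k code H κ w2 := by
    constructor
    · rintro ⟨w, x, y, h3, h4, h5⟩
      rcases hcov w h3 h4 with rfl | rfl
      · exact Or.inl ⟨x, y, h5⟩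
      · exact Or.inr ⟨x, y, h5⟩
    · rintro (⟨x, y, h5⟩ | ⟨x, y, h5⟩)
      · exact ⟨w1, x, y, h1.1, h1.2, h5⟩
      · exact ⟨w2, x, y, h2.1, h2.2, h5⟩
  by_cases hs1 : SW k code H κ w1
  · have hs2 : ¬ SW k code H κ w2 := by
      rintro ⟨x2, y2, g1, g2, g3, g4, g5⟩
      obtain ⟨x1, y1, f1, f2, f3, f4, f5⟩ := hs1
      exact hA.str v κ w1 w2 x1 x2 y1 y2 hv hne h1.1 h1.2 f1 f2 f3 f4 h2.1 h2.2 g1 g2 g3 g4
        ⟨f5, g5⟩
    refine ⟨fun c => if c = true then w1 else w2, ?_, by simpa using hne, ?_, ?_, by simpa using hs2⟩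
    · intro c
      cases c
      · simpa using h2
      · simpa using h1
    · intro u hu1 hu2
      simpa using hcov u hu1 hu2
    · simp only [if_true]
      rw [hS]
      simp [hs1]
  · refine ⟨fun c => if c = true then w2 else w1, ?_, by simpa using hne.symm, ?_, ?_,
      by simpa using hs1⟩
    · intro c
      cases c
      · simpa using h1
      · simpa using h2
    · intro u hu1 hu2
      simpa using (hcov u hu1 hu2).symm
    · simp only [if_true]
      rw [hS]
      simp [hs1]

/-- the data of one gadget at the vertex `w` of sort `a1`, with leaves indexed by `P` -/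
private structure Dat {K W : Type} (k : ℕ) (code : K → Finset ℕ) (H : SimpleGraph W) (κ : K)
    (w : W) (P : ℕ → Prop) (x y : W) (e : ℕ → W) (q : ℕ → ℕ → W) : Prop where
  x1 : H.Adj w x ∧ Is k code H (Cl.a2 κ) x
  y1 : H.Adj x y ∧ Is k code H (Cl.r κ) y
  e1 : ∀ i, P i → H.Adj y (e i) ∧ Is k code H (Cl.l κ) (e i)
  e2 : ∀ i j, P i → P j → e i = e j → i = j
  e3 : ∀ u, H.Adj y u → Is k code H (Cl.l κ) u → ∃ i, P i ∧ e i = u
  q0 : ∀ i ∈ code κ, q i 0 = w
  q1 : ∀ i ∈ code κ, ∀ j, 1 ≤ j → j ≤ i → Is k code H (Cl.m κ i j) (q i j) ∧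
    H.Adj (q i (j - 1)) (q i j)

private theorem dat {K W : Type} {k : ℕ} {code : K → Finset ℕ} {H : SimpleGraph W}
    (hA : LocAx k code H) (κ : K) (w : W) (hw : Is k code H (Cl.a1 κ) w) (Q : Prop)
    (hQ : Q ↔ SW k code H κ w) :
    ∃ (x y : W) (e : ℕ → W) (q : ℕ → ℕ → W),
      Dat k code H κ w (fun i => i < MM k ∨ (i = MM k ∧ Q)) x y e q := by
  classical
  obtain ⟨x, hx, hxu⟩ := hA.dn w (Cl.a1 κ) (Cl.a2 κ) trivial trivial hw (by simp) rfl (by simp)
    (by simp)
  obtain ⟨y, hy, hyu⟩ := hA.dn x (Cl.a2 κ) (Cl.r κ) trivial trivial hx.2 (by simp) rfl (by simp)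
    (by simp)
  have hD : Q ↔ DegGe H (MM k + 2) y := by
    rw [hQ]
    constructor
    · rintro ⟨x', y', g1, g2, g3, g4, g5⟩
      have e1 : x' = x := hxu x' ⟨g1, g2⟩
      subst e1
      have e2 : y' = y := hyu y' ⟨g3, g4⟩
      subst e2
      exact g5
    · intro h
      exact ⟨x, y, hx.1, hx.2, hy.1, hy.2, h⟩
  have hP : ∀ i, (i < MM k ∨ (i = MM k ∧ Q)) ↔ i < (if Q then MM k + 1 else MM k) := by
    intro i
    split_ifs with h
    · constructor
      · rintro (h1 | ⟨h1, -⟩)
        · omega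
        · omega
      · intro h1
        by_cases h2 : i < MM k
        · exact Or.inl h2
        · exact Or.inr ⟨by omega, h⟩
    · constructor
      · rintro (h1 | ⟨-, h1⟩)
        · exact h1
        · exact absurd h1 h
      · intro h1
        exact Or.inl h1
  obtain ⟨e, e1, e2, e3⟩ := leaves hA hy.2 (if Q then MM k + 1 else MM k)
    (by split_ifs <;> simp) (by
      rw [← hD]
      by_cases h : Q
      · simp [h]
      · simp [h])
  have hq : ∀ i, ∃ q : ℕ → W, i ∈ code κ → (q 0 = w ∧ ∀ j, 1 ≤ j → j ≤ i →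
      Is k code H (Cl.m κ i j) (q j) ∧ H.Adj (q (j - 1)) (q j)) := by
    intro i
    by_cases hi : i ∈ code κ
    · obtain ⟨q, hq⟩ := pth hA hw hi
      exact ⟨q, fun _ => hq⟩
    · exact ⟨fun _ => w, fun h => absurd h hi⟩
  choose q hq using hq
  refine ⟨x, y, e, q, hx, hy, ?_, ?_, ?_, fun i hi => (hq i hi).1, fun i hi => (hq i hi).2⟩
  · intro i hi
    exact e1 i ((hP i).1 hi)
  · intro i j hi hj hij
    exact e2 i ((hP i).1 hi) j ((hP j).1 hj) hij
  · intro u hu1 hu2
    obtain ⟨i, hi, hiu⟩ := e3 u hu1 hu2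
    exact ⟨i, (hP i).2 hi, hiu⟩

private theorem clOk {K : Type} {m : ℕ} {code : K → Finset ℕ} {L : Finset K} {f : Fb K}
    (h : Fb.ok m code L f) : (clOf f).ok code := by
  cases f with
  | root => trivial
  | a1 κ c => trivial
  | a2 κ c => trivial
  | r κ c => trivial
  | lf κ c i => trivial
  | mk κ c i j => exact h

theorem pDecX1 : StDecX1 := by
  classical
  intro K W _ _ k hk C H hA
  have hex : ∀ (v : {v // Plv H v}) (κ : K), ∃ w : Bool → W,
      (∀ c, H.Adj v.1 (w c) ∧ Is k C.code H (Cl.a1 κ) (w c)) ∧ w true ≠ w false ∧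
      (∀ u, H.Adj v.1 u → Is k C.code H (Cl.a1 κ) u → u = w true ∨ u = w false) ∧
      (StrAt k C.code H v.1 κ ↔ SW k C.code H κ (w true)) ∧ ¬ SW k C.code H κ (w false) :=
    fun v κ => two hA v.1 κ v.2
  choose w hw1 hw2 hw3 hw4 hw5 using hex
  have hdat : ∀ (v : {v // Plv H v}) (κ : K) (c : Bool), ∃ (x y : W) (e : ℕ → W)
      (q : ℕ → ℕ → W), Dat k C.code H κ (w v κ c)
        (fun i => i < MM k ∨ (i = MM k ∧ c = true ∧ StrAt k C.code H v.1 κ)) x y e q := by
    intro v κ c
    refine dat hA κ (w v κ c) (hw1 v κ c).2 _ ?_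
    cases c with
    | false =>
      constructor
      · rintro ⟨h, -⟩
        simp at h
      · intro h
        exact absurd h (hw5 v κ)
    | true =>
      rw [← hw4 v κ]
      simp
  choose x y e q hd using hdat
  let L : {v // Plv H v} → Finset K := fun v => Finset.univ.filter fun κ => StrAt k C.code H v.1 κ
  let ψ : {v // Plv H v} → Fb K → W := fun v f => match f with
    | Fb.root => v.1
    | Fb.a1 κ c => w v κ c
    | Fb.a2 κ c => x v κ c
    | Fb.r κ c => y v κ c
    | Fb.lf κ c i => e v κ c i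
    | Fb.mk κ c i j => q v κ c i j
  have hL : ∀ v κ, κ ∈ L v ↔ StrAt k C.code H v.1 κ := by
    intro v κ
    simp [L]
  have hcls : ∀ v f, Fb.ok (MM k) C.code (L v) f → Is k C.code H (clOf f) (ψ v f) := by
    intro v f hf
    cases f with
    | root => exact v.2
    | a1 κ c => exact (hw1 v κ c).2
    | a2 κ c => exact (hd v κ c).x1.2
    | r κ c => exact (hd v κ c).y1.2
    | lf κ c i =>
      simp only [Fb.ok, hL] at hf
      exact ((hd v κ c).e1 i hf).2
    | mk κ c i j => exact ((hd v κ c).q1 i hf.1 j hf.2.1 hf.2.2).1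
  refine ⟨L, ψ, ⟨fun v => rfl, hcls, ?_, ?_, ?_, hL⟩⟩
  · intro v f hf hr
    cases f with
    | root => exact absurd rfl hr
    | a1 κ c => exact (hw1 v κ c).1.symm
    | a2 κ c => exact (hd v κ c).x1.1.symm
    | r κ c => exact (hd v κ c).y1.1.symm
    | lf κ c i =>
      simp only [Fb.ok, hL] at hf
      exact ((hd v κ c).e1 i hf).1.symm
    | mk κ c i j =>
      have h1 := ((hd v κ c).q1 i hf.1 j hf.2.1 hf.2.2).2.symm
      have hj1 := hf.2.1
      by_cases hj : j ≤ 1
      · have e1 : j = 1 := by omega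
        subst e1
        have h2 := (hd v κ c).q0 i hf.1
        simp only [Nat.sub_self, h2] at h1
        simpa [Fb.par, ψ] using h1
      · simpa [Fb.par, hj, ψ] using h1
  · intro v f g hf hg hfr hgr hpar hψ
    have hcl : clOf f = clOf g := by
      refine hA.un (ψ v f) _ _ (clOk hf) (clOk hg) (hcls v f hf) ?_
      rw [hψ]
      exact hcls v g hg
    cases f with
    | root => exact absurd rfl hfr
    | a1 κ c =>
      cases g with
      | a1 κ' c' =>
        simp only [clOf, Cl.a1.injEq] at hcl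
        subst hcl
        have h1 : w v κ c = w v κ c' := hψ
        have h2 : c = c' := by
          cases c <;> cases c'
          · rfl
          · exact absurd h1.symm (hw2 v κ)
          · exact absurd h1 (hw2 v κ)
          · rfl
        rw [h2]
      | _ => simp [clOf] at hcl
    | a2 κ c =>
      cases g with
      | a2 κ' c' =>
        simp only [Fb.par, Fb.a1.injEq] at hpar
        rw [hpar.1, hpar.2]
      | _ => simp [clOf] at hcl
    | r κ c =>
      cases g with
      | r κ' c' =>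
        simp only [Fb.par, Fb.a2.injEq] at hpar
        rw [hpar.1, hpar.2]
      | _ => simp [clOf] at hcl
    | lf κ c i =>
      cases g with
      | lf κ' c' i' =>
        simp only [Fb.par, Fb.r.injEq] at hpar
        obtain ⟨h1, h2⟩ := hpar
        subst h1 h2
        simp only [Fb.ok, hL] at hf hg
        have h3 := (hd v κ c).e2 i i' hf hg hψ
        rw [h3]
      | _ => simp [clOf] at hcl
    | mk κ c i j =>
      cases g with
      | mk κ' c' i' j' =>
        simp only [clOf, Cl.m.injEq] at hcl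
        obtain ⟨h1, h2, h3⟩ := hcl
        subst h1 h2 h3
        have h4 : c = c' := by
          simp only [Fb.par] at hpar
          split_ifs at hpar with h5
          · simpa using hpar
          · simpa using hpar
        rw [h4]
      | _ => simp [clOf] at hcl
  · intro v f hf u hu c' hc' hcu hc0 hpar
    cases f with
    | root =>
      have h0 : c'.par = Cl.pl := hpar
      cases c' with
      | pl => exact absurd rfl hc0
      | a1 κ =>
        rcases hw3 v κ u hu hcu with h | h
        · exact ⟨Fb.a1 κ true, by simp, trivial, rfl, h.symm⟩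
        · exact ⟨Fb.a1 κ false, by simp, trivial, rfl, h.symm⟩
      | m κ i j =>
        simp only [Cl.par] at h0
        split_ifs at h0
      | _ => simp [Cl.par] at h0
    | a1 κ c =>
      have h0 : c'.par = Cl.a1 κ := hpar
      have hu' : H.Adj (w v κ c) u := hu
      cases c' with
      | a2 κ' =>
        simp only [Cl.par, Cl.a1.injEq] at h0
        subst h0
        obtain ⟨z, -, hz⟩ := hA.dn (w v κ' c) (Cl.a1 κ') (Cl.a2 κ') trivial trivial (hw1 v κ' c).2
          (by simp) rfl (by simp) (by simp)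
        refine ⟨Fb.a2 κ' c, by simp, trivial, rfl, ?_⟩
        rw [hz u ⟨hu', hcu⟩]
        exact hz _ (hd v κ' c).x1
      | m κ' i j =>
        simp only [Cl.par] at h0
        split_ifs at h0 with h5
        simp only [Cl.a1.injEq] at h0
        subst h0
        obtain ⟨hi, hj1, hj2⟩ := hc'
        have e1 : j = 1 := by omega
        subst e1
        obtain ⟨z, -, hz⟩ := hA.dn (w v κ' c) (Cl.a1 κ') (Cl.m κ' i 1) trivial ⟨hi, hj1, hj2⟩
          (hw1 v κ' c).2 (by simp) (by simp [Cl.par]) (by simp) (by simp)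
        refine ⟨Fb.mk κ' c i 1, by simp, ⟨hi, hj1, hj2⟩, by simp [Fb.par], ?_⟩
        rw [hz u ⟨hu', hcu⟩]
        have h6 := (hd v κ' c).q1 i hi 1 hj1 hj2
        have h7 := h6.2
        rw [Nat.sub_self, (hd v κ' c).q0 i hi] at h7
        exact hz _ ⟨h7, h6.1⟩
      | _ => simp [Cl.par] at h0
    | a2 κ c =>
      have h0 : c'.par = Cl.a2 κ := hpar
      have hu' : H.Adj (x v κ c) u := hu
      cases c' with
      | r κ' =>
        simp only [Cl.par, Cl.a2.injEq] at h0
        subst h0
        obtain ⟨z, -, hz⟩ := hA.dn (x v κ' c) (Cl.a2 κ') (Cl.r κ') trivial trivial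
          (hd v κ' c).x1.2 (by simp) rfl (by simp) (by simp)
        refine ⟨Fb.r κ' c, by simp, trivial, rfl, ?_⟩
        rw [hz u ⟨hu', hcu⟩]
        exact hz _ (hd v κ' c).y1
      | m κ' i j =>
        simp only [Cl.par] at h0
        split_ifs at h0
      | _ => simp [Cl.par] at h0
    | r κ c =>
      have h0 : c'.par = Cl.r κ := hpar
      have hu' : H.Adj (y v κ c) u := hu
      cases c' with
      | l κ' =>
        simp only [Cl.par, Cl.r.injEq] at h0
        subst h0
        obtain ⟨i, hi, hiu⟩ := (hd v κ' c).e3 u hu' hcu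
        refine ⟨Fb.lf κ' c i, by simp, ?_, rfl, hiu⟩
        simp only [Fb.ok, hL]
        exact hi
      | m κ' i j =>
        simp only [Cl.par] at h0
        split_ifs at h0
      | _ => simp [Cl.par] at h0
    | lf κ c i =>
      have h0 : c'.par = Cl.l κ := hpar
      cases c' with
      | m κ' i j =>
        simp only [Cl.par] at h0
        split_ifs at h0
      | _ => simp [Cl.par] at h0
    | mk κ c i j =>
      have h0 : c'.par = Cl.m κ i j := hpar
      have hu' : H.Adj (q v κ c i j) u := hu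
      cases c' with
      | m κ' i' j' =>
        simp only [Cl.par] at h0
        split_ifs at h0 with h5
        simp only [Cl.m.injEq] at h0
        obtain ⟨h1, h2, h3⟩ := h0
        subst h1 h2
        obtain ⟨hi, hj1, hj2⟩ := hc'
        have e1 : j' = j + 1 := by omega
        subst e1
        obtain ⟨hi0, hj0, hj3⟩ := hf
        have hq := (hd v κ' c).q1 i' hi j hj0 hj3
        obtain ⟨z, -, hz⟩ := hA.dn (q v κ' c i' j) (Cl.m κ' i' j) (Cl.m κ' i' (j + 1))
          ⟨hi, hj0, hj3⟩ ⟨hi, hj1, hj2⟩ hq.1 (by simp) (by simp [Cl.par, h5]) (by simp) (by simp)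
        refine ⟨Fb.mk κ' c i' (j + 1), by simp, ⟨hi, hj1, hj2⟩, by simp [Fb.par, h5], ?_⟩
        rw [hz u ⟨hu', hcu⟩]
        have h6 := (hd v κ' c).q1 i' hi (j + 1) hj1 hj2
        exact hz _ ⟨h6.2, h6.1⟩
      | _ => simp [Cl.par] at h0

end Pool.Agent.Helper1.LD
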