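import Pool.Agent.Helper1.LD.Int

/-!
# L^1 discrepancy: a positive lower bound for a bounded number of points (module LD-SMALL of
MP_c61924_co)
-/

set_option autoImplicit false

namespace Pool.Agent.Helper93.LD

open MeasureTheory

theorem absdisc_quarter {d : ℕ} (P : Finset (Fin d → ℝ)) (N : ℕ) (x : Fin d → ℝ)
    (h1 : 1 / 4 ≤ (N : ℝ) * ∏ i, x i) (h2 : (N : ℝ) * ∏ i, x i ≤ 3 / 4) :
    1 / 4 ≤ absdisc P N x := by
  unfold absdisc
  rcases Nat.eq_zero_or_pos
    ((P : Set (Fin d → ℝ)) ∩ Set.pi Set.univ (fun i => Set.Iio (x i))).ncard with h | h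
  · rw [h, Nat.cast_zero, zero_sub, abs_neg]
    exact h1.trans (le_abs_self _)
  · have h3 : (1:ℝ) ≤
        (((P : Set (Fin d → ℝ)) ∩ Set.pi Set.univ (fun i => Set.Iio (x i))).ncard : ℝ) := by
      exact_mod_cast h
    refine le_trans ?_ (le_abs_self _)
    linarith

/-- a positive lower bound for a bounded number of points -/
theorem small_N (d : ℕ) (hd : 1 ≤ d) (N0 : ℕ) : ∃ c : ℝ, 0 < c ∧ ∀ N : ℕ, 1 ≤ N → N ≤ N0 →
    ∀ P : Finset (Fin d → ℝ), P.card = N →
      c ≤ ∫ x in Set.Icc (0 : Fin d → ℝ) 1, absdisc P N x := by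
  obtain ⟨e, rfl⟩ : ∃ e, d = e + 1 := ⟨d - 1, by omega⟩
  set D : ℝ := ((e + 1 : ℕ) : ℝ) with hD
  have hD1 : 1 ≤ D := by
    rw [hD]
    push_cast
    linarith [(Nat.cast_nonneg e : (0:ℝ) ≤ (e:ℝ))]
  have hDe : D = e + 1 := by
    rw [hD]
    push_cast
    ring
  refine ⟨1 / 4 * (1 / (4 * (N0 + 1)) * (1 / (2 * D)) ^ e), by positivity, ?_⟩
  intro N hN hN0 P _
  have hN' : (1:ℝ) ≤ N := by exact_mod_cast hN
  have hN0' : (N:ℝ) ≤ N0 := by exact_mod_cast hN0
  have hNpos : (0:ℝ) < N := by linarith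
  have hfrac : 1 / (2 * D) ≤ 1 / 2 := by
    rw [div_le_div_iff₀ (by positivity) (by norm_num)]
    linarith
  have hfrac0 : 0 < 1 / (2 * D) := by positivity
  set a : Fin (e + 1) → ℝ := Fin.cons (1 / (2 * N)) (fun _ => 1 - 1 / (2 * D)) with ha
  set b : Fin (e + 1) → ℝ := Fin.cons (3 / (4 * N)) (fun _ => 1) with hb
  have hbern : 1 / 2 ≤ (1 - 1 / (2 * D)) ^ e := by
    have h1 := one_add_mul_le_pow (a := -(1 / (2 * D))) (by linarith) e
    have h2 : 1 + (e:ℝ) * (-(1 / (2 * D))) ≥ 1 / 2 := by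
      have h3 : (e:ℝ) * (1 / (2 * D)) ≤ 1 / 2 := by
        rw [mul_one_div, div_le_div_iff₀ (by positivity) (by norm_num)]
        rw [hDe]
        linarith
      linarith
    calc (1:ℝ) / 2 ≤ 1 + (e:ℝ) * (-(1 / (2 * D))) := h2
      _ ≤ (1 + -(1 / (2 * D))) ^ e := h1
      _ = (1 - 1 / (2 * D)) ^ e := by rw [← sub_eq_add_neg]
  have h34 : 3 / (4 * (N:ℝ)) ≤ 1 := by
    rw [div_le_one (by positivity)]
    linarith
  have hbox : Set.Icc a b ⊆ Set.Icc (0 : Fin (e + 1) → ℝ) 1 := by
    intro x hx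
    constructor
    · intro i
      refine le_trans ?_ (hx.1 i)
      refine Fin.cases ?_ (fun j => ?_) i
      · rw [ha, Fin.cons_zero, Pi.zero_apply]
        positivity
      · rw [ha, Fin.cons_succ, Pi.zero_apply]
        linarith
    · intro i
      refine (hx.2 i).trans ?_
      refine Fin.cases ?_ (fun j => ?_) i
      · rw [hb, Fin.cons_zero, Pi.one_apply]
        exact h34
      · rw [hb, Fin.cons_succ, Pi.one_apply]
  have hlow : ∀ x ∈ Set.Icc a b, 1 / 4 ≤ absdisc P N x := by
    intro x hx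
    have hx0 := hx.1 0
    have hx0' := hx.2 0
    rw [ha, Fin.cons_zero] at hx0
    rw [hb, Fin.cons_zero] at hx0'
    have hxs : ∀ j : Fin e, 1 - 1 / (2 * D) ≤ x j.succ := by
      intro j
      have := hx.1 j.succ
      rwa [ha, Fin.cons_succ] at this
    have hxs' : ∀ j : Fin e, x j.succ ≤ 1 := by
      intro j
      have := hx.2 j.succ
      rwa [hb, Fin.cons_succ] at this
    have hp1 : 1 / 2 ≤ ∏ j : Fin e, x j.succ := by
      calc (1:ℝ) / 2 ≤ (1 - 1 / (2 * D)) ^ e := hbern
        _ = ∏ _j : Fin e, (1 - 1 / (2 * D)) := by simp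
        _ ≤ ∏ j : Fin e, x j.succ := by
          apply Finset.prod_le_prod
          · intro j _
            linarith
          · intro j _
            exact hxs j
    have hp2 : ∏ j : Fin e, x j.succ ≤ 1 := by
      apply Finset.prod_le_one
      · intro j _
        linarith [hxs j]
      · intro j _
        exact hxs' j
    have hx00 : 0 ≤ x 0 := le_trans (by positivity) hx0
    have hNx1 : 1 / 2 ≤ (N:ℝ) * x 0 := by
      calc (1:ℝ) / 2 = N * (1 / (2 * N)) := by field_simp
        _ ≤ N * x 0 := mul_le_mul_of_nonneg_left hx0 hNpos.le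
    have hNx2 : (N:ℝ) * x 0 ≤ 3 / 4 := by
      calc (N:ℝ) * x 0 ≤ N * (3 / (4 * N)) := mul_le_mul_of_nonneg_left hx0' hNpos.le
        _ = 3 / 4 := by field_simp
    apply absdisc_quarter
    · rw [Fin.prod_univ_succ, ← mul_assoc]
      calc (1:ℝ) / 4 = 1 / 2 * (1 / 2) := by norm_num
        _ ≤ (N * x 0) * ∏ j : Fin e, x j.succ := mul_le_mul hNx1 hp1 (by norm_num) (by positivity)
    · rw [Fin.prod_univ_succ, ← mul_assoc]
      calc (N * x 0) * ∏ j : Fin e, x j.succ ≤ (N * x 0) * 1 :=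
            mul_le_mul_of_nonneg_left hp2 (by positivity)
        _ ≤ 3 / 4 := by rw [mul_one]; exact hNx2
  have hvol : (volume (Set.Icc a b)).toReal = 1 / (4 * N) * (1 / (2 * D)) ^ e := by
    rw [Real.volume_Icc_pi_toReal]
    · rw [Fin.prod_univ_succ, ha, hb]
      simp only [Fin.cons_zero, Fin.cons_succ, sub_sub_cancel, Finset.prod_const,
        Finset.card_univ, Fintype.card_fin]
      congr 1
      field_simp
      norm_num
    · intro i
      refine Fin.cases ?_ (fun j => ?_) i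
      · rw [ha, hb, Fin.cons_zero, Fin.cons_zero]
        rw [div_le_div_iff₀ (by positivity) (by positivity)]
        linarith
      · rw [ha, hb, Fin.cons_succ, Fin.cons_succ]
        linarith
  have hfin : volume (Set.Icc a b) ≠ ⊤ := isCompact_Icc.measure_lt_top.ne
  calc 1 / 4 * (1 / (4 * ((N0:ℝ) + 1)) * (1 / (2 * D)) ^ e)
      ≤ 1 / 4 * (1 / (4 * N) * (1 / (2 * D)) ^ e) := by
        apply mul_le_mul_of_nonneg_left _ (by norm_num)
        apply mul_le_mul_of_nonneg_right _ (by positivity)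
        apply one_div_le_one_div_of_le (by positivity)
        linarith
    _ = ∫ _x in Set.Icc a b, (1 / 4 : ℝ) := by
        rw [setIntegral_const, Measure.real, hvol, smul_eq_mul]
        ring
    _ ≤ ∫ x in Set.Icc a b, absdisc P N x := by
        apply setIntegral_mono_on
        · exact integrableOn_const hfin (by simp)
        · exact (absdisc_integrableOn P N).mono_set hbox
        · exact measurableSet_Icc
        · exact hlow
    _ ≤ ∫ x in Set.Icc (0 : Fin (e + 1) → ℝ) 1, absdisc P N x := by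
        apply setIntegral_mono_set (absdisc_integrableOn P N)
        · exact Filter.Eventually.of_forall fun x => absdisc_nonneg P N x
        · exact hbox.eventuallyLE

end Pool.Agent.Helper93.LD
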